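import Pool.Agent.Helper41.BootGap
import Pool.Agent.Helper92.GB.Phases
import Pool.Agent.Helper92.GB.CoreHyp

set_option autoImplicit false

namespace Pool.Agent.Results.MP_8f7d8d_co.HubBounded

open Pool.Agent.Helper41.Boot Pool.Agent.Helper92.GB

/-- **Constant running time.**  Let `H` have a vertex of degree one, let `A` be the set of the
neighbours of such vertices.  If `H - A` is a forest, or, more generally, if every long critical
chain of copies of `H` with a bounded number of exceptional vertices is explosive, then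
`M_H(n) = Θ(1)`. -/
theorem result (W : Type*) [Fintype W] (H : SimpleGraph W)
    (hleaf : ∃ l p, ∀ w, H.Adj l w ↔ w = p)
    (hyp : (H.induce {w | ¬ IsSupport H w}).IsAcyclic ∨ ChainHyp H (fun _ => False)) :
    ∃ C n₀ : ℕ, ∀ n, n₀ ≤ n → 1 ≤ maxRun H n ∧ maxRun H n ≤ C := by
  have hE : ChainHyp H (fun _ => False) := by
    rcases hyp with h | h
    · exact chainHyp_of_forest H h
    · exact h
  obtain ⟨l, p, hlp⟩ := id hleaf
  have hH : H ≠ ⊥ := by
    intro hH
    have : H.Adj l p := (hlp p).2 rfl
    rw [hH] at this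
    exact this
  obtain ⟨C, hC⟩ := bounded_of_chainHyp H ⟨p, l, hlp⟩ hE
  exact ⟨C, Fintype.card W, fun n hn => ⟨one_le_maxRun H hH hn, hC n⟩⟩

end Pool.Agent.Results.MP_8f7d8d_co.HubBounded
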