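import Pool.Agent.Helper41.BootGap
import Pool.Agent.Helper92.GB.LogBound
import Pool.Agent.Helper92.GB.CoreHyp

set_option autoImplicit false

namespace Pool.Agent.Results.MP_8f7d8d_co.HubCriterion

open Pool.Agent.Helper41.Boot Pool.Agent.Helper92.GB

private theorem ne_bot {W : Type*} (H : SimpleGraph W) (h : ∃ l p, ∀ w, H.Adj l w ↔ w = p) :
    H ≠ ⊥ := by
  obtain ⟨l, p, hlp⟩ := h
  intro hH
  have : H.Adj l p := (hlp p).2 rfl
  rw [hH] at this
  exact this

private theorem log_dichotomy {W : Type*} [Fintype W] (H : SimpleGraph W) (hH : H ≠ ⊥)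
    (hlog : ∃ C, ∀ n, maxRun H n ≤ Nat.log 2 n + C) :
    (∃ C n₀ : ℕ, ∀ n, n₀ ≤ n → 1 ≤ maxRun H n ∧ maxRun H n ≤ C) ∨
      ∃ c C : ℝ, 0 < c ∧ ∃ n₀ : ℕ, ∀ n, n₀ ≤ n →
        c * Real.log n ≤ maxRun H n ∧ (maxRun H n : ℝ) ≤ C * Real.log n := by
  rcases gap H with ⟨C, hC⟩ | ⟨c, hc, n₀, hn₀⟩
  · exact Or.inl ⟨C, Fintype.card W, fun n hn => ⟨one_le_maxRun H hH hn, hC n⟩⟩
  right
  obtain ⟨C, hC⟩ := hlog
  have h2 : 0 < Real.log 2 := Real.log_pos (by norm_num)
  refine ⟨c, 1 / Real.log 2 + C / Real.log 2, hc, n₀ + 2, fun n hn => ⟨hn₀ n (by omega), ?_⟩⟩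
  have hn2 : 2 ≤ n := by omega
  have hn0 : n ≠ 0 := by omega
  have h3 : (maxRun H n : ℝ) ≤ (Nat.log 2 n : ℝ) + C := by exact_mod_cast hC n
  have h4 : (Nat.log 2 n : ℝ) * Real.log 2 ≤ Real.log n := by
    have h5 : ((2 : ℝ) ^ Nat.log 2 n) ≤ n := by
      exact_mod_cast Nat.pow_log_le_self 2 hn0
    calc (Nat.log 2 n : ℝ) * Real.log 2 = Real.log ((2 : ℝ) ^ Nat.log 2 n) := by
          rw [Real.log_pow]
      _ ≤ Real.log n := Real.log_le_log (by positivity) h5
  have h6 : Real.log 2 ≤ Real.log n :=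
    Real.log_le_log (by norm_num) (by exact_mod_cast hn2)
  have h7 : (Nat.log 2 n : ℝ) ≤ 1 / Real.log 2 * Real.log n := by
    rw [one_div, inv_mul_eq_div, le_div_iff₀ h2]
    exact h4
  have h8 : (C : ℝ) ≤ C / Real.log 2 * Real.log n := by
    rw [div_mul_eq_mul_div, le_div_iff₀ h2]
    exact mul_le_mul_of_nonneg_left h6 (Nat.cast_nonneg C)
  calc (maxRun H n : ℝ) ≤ (Nat.log 2 n : ℝ) + C := h3
    _ ≤ 1 / Real.log 2 * Real.log n + C / Real.log 2 * Real.log n := add_le_add h7 h8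
    _ = (1 / Real.log 2 + C / Real.log 2) * Real.log n := by ring

/-- **Constant or logarithmic running time.**  Let `H` have a vertex of degree one, let `A` be the
set of the neighbours of such vertices.  If no component of `H - A` contains two cycles, or, more
generally, if every long critical chain of copies of `H` with a bounded number of exceptional
vertices is explosive or creates a copy of `H` whose vertices outside the hub set have a cycle
component, then `M_H(n)` is `Θ(1)` or `Θ(log n)`. -/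
theorem result (W : Type*) [Fintype W] (H : SimpleGraph W)
    (hleaf : ∃ l p, ∀ w, H.Adj l w ↔ w = p)
    (hyp : Pseudo H ∨ ChainHyp H (fun S => ∃ k, CycleComp H S k)) :
    (∃ C n₀ : ℕ, ∀ n, n₀ ≤ n → 1 ≤ maxRun H n ∧ maxRun H n ≤ C) ∨
      ∃ c C : ℝ, 0 < c ∧ ∃ n₀ : ℕ, ∀ n, n₀ ≤ n →
        c * Real.log n ≤ maxRun H n ∧ (maxRun H n : ℝ) ≤ C * Real.log n := by
  have hE : ChainHyp H (fun S => ∃ k, CycleComp H S k) := by
    rcases hyp with h | h
    · exact chainHyp_of_pseudo H h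
    · exact h
  obtain ⟨l, p, hlp⟩ := id hleaf
  exact log_dichotomy H (ne_bot H hleaf) (log_of_chainHyp H ⟨p, l, hlp⟩ hE)

end Pool.Agent.Results.MP_8f7d8d_co.HubCriterion
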