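import Pool.Agent.Helper41.BootGap

set_option autoImplicit false

namespace Pool.Agent.Results.MP_8f7d8d_co.LogGap

open Pool.Agent.Helper41.Boot

/-- **No growth between constant and logarithmic.**  For every finite graph `H` with an edge,
either `M_H(n) = Θ(1)` or `M_H(n) = Ω(log n)`. -/
theorem result (W : Type*) [Fintype W] (H : SimpleGraph W) (hH : H ≠ ⊥) :
    (∃ C n₀ : ℕ, ∀ n, n₀ ≤ n → 1 ≤ maxRun H n ∧ maxRun H n ≤ C) ∨
      ∃ c : ℝ, 0 < c ∧ ∃ n₀ : ℕ, ∀ n, n₀ ≤ n → c * Real.log n ≤ maxRun H n := by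
  rcases gap H with ⟨C, hC⟩ | h
  · exact Or.inl ⟨C, Fintype.card W, fun n hn => ⟨one_le_maxRun H hH hn, hC n⟩⟩
  · exact Or.inr h

end Pool.Agent.Results.MP_8f7d8d_co.LogGap
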