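import Pool.Agent.Helper41.BootGap
import Pool.Agent.Helper92.GB.Pendant

set_option autoImplicit false

namespace Pool.Agent.Results.MP_8f7d8d_co.PendantPath

open Pool.Agent.Helper41.Boot Pool.Agent.Helper92.GB

/-- **Pendant paths.**  If some vertex `l` of degree one of `H` has a neighbour `s` of degree two,
then `M_H(n) ≤ 6` for all `n ≥ 2 |V(H)|`. -/
theorem result (W : Type*) [Fintype W] (H : SimpleGraph W) (l s c : W)
    (hl : ∀ w, H.Adj l w ↔ w = s) (hlc : l ≠ c) (hs : ∀ w, H.Adj s w ↔ w = l ∨ w = c) (n : ℕ)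
    (hn : 2 * Fintype.card W ≤ n) : 1 ≤ maxRun H n ∧ maxRun H n ≤ 6 := by
  have hH : H ≠ ⊥ := by
    intro hH
    have : H.Adj l s := (hl s).2 rfl
    rw [hH] at this
    exact this
  refine ⟨one_le_maxRun H hH (by omega), ?_⟩
  apply maxRun_le_of_forall
  intro G
  exact pendant_run H l s c hl hlc hs G (by simpa using hn)

end Pool.Agent.Results.MP_8f7d8d_co.PendantPath
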